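import Mathlib
import Pool.Agent.Helper75.LP.Defs

/-!
# Masses of balls for `×2, ×3`-invariant measures

`ball_le`: if `x` is badly approximated by the rationals with denominators at most `8 ^ a`, then the
ball of radius `r` around `x` has mass at most `1 / a ^ 2`.
-/

set_option autoImplicit false

open MeasureTheory Finset Filter Topology

namespace Helper17.GH

open Helper75.LP (Tor)

/-- the numbers `2 ^ i * 3 ^ l` are distinct -/
lemma two_three_inj {i l i' l' : ℕ} (h : 2 ^ i * 3 ^ l = 2 ^ i' * 3 ^ l') : i = i' ∧ l = l' := by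
  have h1 : (2 ^ i * 3 ^ l).factorization = (2 ^ i' * 3 ^ l').factorization := by rw [h]
  rw [Nat.factorization_mul (by positivity) (by positivity),
    Nat.factorization_mul (by positivity) (by positivity), Nat.factorization_pow,
    Nat.factorization_pow, Nat.factorization_pow, Nat.factorization_pow,
    Nat.prime_two.factorization, Nat.prime_three.factorization] at h1
  have h2 := DFunLike.congr_fun h1 2
  have h3 := DFunLike.congr_fun h1 3
  simp at h2 h3
  exact ⟨h2, h3⟩

lemma preserving_two_three {ν : Measure Tor}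
    (h2 : MeasurePreserving (fun x : Tor => (2 : ℕ) • x) ν ν)
    (h3 : MeasurePreserving (fun x : Tor => (3 : ℕ) • x) ν ν) (i l : ℕ) :
    MeasurePreserving (fun x : Tor => (2 ^ i * 3 ^ l : ℕ) • x) ν ν := by
  have key : ∀ s : ℕ, MeasurePreserving (fun x : Tor => s • x) ν ν → ∀ n : ℕ,
      MeasurePreserving (fun x : Tor => (s ^ n : ℕ) • x) ν ν := by
    intro s hs n
    induction n with
    | zero =>
      simp only [pow_zero, one_smul]
      exact MeasurePreserving.id ν
    | succ n ih =>
      have h4 := ih.comp hs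
      have e : (fun x : Tor => (s ^ n : ℕ) • x) ∘ (fun x : Tor => s • x) =
          fun x : Tor => (s ^ (n + 1) : ℕ) • x := by
        funext x
        show (s ^ n : ℕ) • (s • x) = (s ^ (n + 1) : ℕ) • x
        rw [← mul_nsmul', pow_succ]
      rwa [e] at h4
  have h5 := (key 2 h2 i).comp (key 3 h3 l)
  have e : (fun x : Tor => (2 ^ i : ℕ) • x) ∘ (fun x : Tor => (3 ^ l : ℕ) • x) =
      fun x : Tor => (2 ^ i * 3 ^ l : ℕ) • x := by
    funext x
    show (2 ^ i : ℕ) • ((3 ^ l : ℕ) • x) = _
    rw [← mul_nsmul']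
  rwa [e] at h5

lemma two_three_le {a i l : ℕ} (hi : i < a) (hl : l < a) : 2 ^ i * 3 ^ l ≤ 8 ^ a := by
  calc 2 ^ i * 3 ^ l ≤ 2 ^ a * 4 ^ a := by
        apply Nat.mul_le_mul
        · exact Nat.pow_le_pow_right (by norm_num) hi.le
        · exact (Nat.pow_le_pow_left (by norm_num) l).trans
            (Nat.pow_le_pow_right (by norm_num) hl.le)
    _ = 8 ^ a := by rw [← mul_pow]; norm_num

/-- **Masses of balls.**  If `x` is badly approximated by the rationals with denominators at most
`8 ^ a`, then the ball of radius `r` around `x` has mass at most `1 / a ^ 2`. -/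
theorem ball_le {ν : Measure Tor} [IsProbabilityMeasure ν]
    (h2 : MeasurePreserving (fun x : Tor => (2 : ℕ) • x) ν ν)
    (h3 : MeasurePreserving (fun x : Tor => (3 : ℕ) • x) ν ν) (a : ℕ) (x : Tor) (r : ℝ)
    (hx : ∀ b : ℕ, 1 ≤ b → b ≤ 8 ^ a → 2 * 8 ^ a * r < ‖b • x‖) :
    (a : ℝ) ^ 2 * ν.real (Metric.closedBall x r) ≤ 1 := by
  rcases lt_or_ge r 0 with hr | hr
  · rw [Metric.closedBall_eq_empty.2 hr, measureReal_empty, mul_zero]
    exact zero_le_one
  let s : ℕ × ℕ → ℕ := fun p => 2 ^ p.1 * 3 ^ p.2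
  let S : Finset (ℕ × ℕ) := range a ×ˢ range a
  let E : ℕ × ℕ → Set Tor := fun p => Metric.closedBall (s p • x) (s p * r)
  have hs8 : ∀ p ∈ S, s p ≤ 8 ^ a := by
    intro p hp
    rw [mem_product, mem_range, mem_range] at hp
    exact two_three_le hp.1 hp.2
  -- the balls are disjoint
  have hdis : ∀ p ∈ S, ∀ p' ∈ S, s p < s p' → Disjoint (E p) (E p') := by
    intro p hp p' hp' hlt
    apply Metric.closedBall_disjoint_closedBall
    have h4 := hx (s p' - s p) (by omega) (by have := hs8 p' hp'; omega)
    have h5 : (s p' - s p) • x = s p' • x - s p • x := by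
      rw [sub_nsmul x hlt.le, sub_eq_add_neg]
    rw [h5] at h4
    have h6 : (s p : ℝ) ≤ 8 ^ a := by exact_mod_cast hs8 p hp
    have h7 : (s p' : ℝ) ≤ 8 ^ a := by exact_mod_cast hs8 p' hp'
    rw [dist_comm, dist_eq_norm]
    nlinarith
  have hdisj : ∀ p ∈ S, ∀ p' ∈ S, p ≠ p' → Disjoint (E p) (E p') := by
    intro p hp p' hp' hne
    rcases lt_trichotomy (s p) (s p') with h4 | h4 | h4
    · exact hdis p hp p' hp' h4
    · exact absurd (Prod.ext (two_three_inj h4).1 (two_three_inj h4).2) hne
    · exact (hdis p' hp' p hp h4).symm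
  -- their masses
  have hmass : ∀ p, ν.real (Metric.closedBall x r) ≤ ν.real (E p) := by
    intro p
    have h4 := (preserving_two_three h2 h3 p.1 p.2).measure_preimage
      (Metric.isClosed_closedBall (x := s p • x) (ε := s p * r)).measurableSet.nullMeasurableSet
    rw [measureReal_def, measureReal_def, ← h4]
    refine ENNReal.toReal_mono (measure_ne_top ν _) (measure_mono ?_)
    intro y hy
    rw [Metric.mem_closedBall, dist_eq_norm] at hy
    show s p • y ∈ Metric.closedBall (s p • x) (s p * r)
    rw [Metric.mem_closedBall, dist_eq_norm, ← nsmul_sub]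
    refine (norm_nsmul_le).trans ?_
    exact mul_le_mul_of_nonneg_left hy (Nat.cast_nonneg _)
  have hsum : ∑ p ∈ S, ν.real (E p) = ν.real (⋃ p ∈ S, E p) := by
    rw [measureReal_biUnion_finset]
    · intro p hp p' hp' hne
      exact hdisj p hp p' hp' hne
    · intro p _
      exact Metric.isClosed_closedBall.measurableSet
  calc (a : ℝ) ^ 2 * ν.real (Metric.closedBall x r)
      = ∑ _p ∈ S, ν.real (Metric.closedBall x r) := by
        rw [Finset.sum_const, card_product, card_range, nsmul_eq_mul]
        push_cast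
        ring
    _ ≤ ∑ p ∈ S, ν.real (E p) := Finset.sum_le_sum fun p _ => hmass p
    _ = ν.real (⋃ p ∈ S, E p) := hsum
    _ ≤ 1 := measureReal_le_one

end Helper17.GH
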