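import Mathlib
import Pool.Agent.Helper17.GH.Ball
import Pool.Agent.Helper75.RE.Arcs

/-!
# The growth of the entropy of `×2, ×3`-invariant measures

`gap`: if a `×2, ×3`-invariant measure has small atoms, then the sum over `j` of
`2 ^ (-j) * H (2 ^ (2 ^ j))` is large, `H K` the entropy on the dyadic arcs of length `2 ^ (-K)`.
-/

set_option autoImplicit false

open MeasureTheory Finset Filter Topology

namespace Helper17.GH

open Helper75.LP (Tor)
open Helper75.RE (arc idx measurableSet_arc mem_arc_iff)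

/-- the points near a rational with denominator at most `B` -/
def Ap (B : ℕ) (ε : ℝ) : Set Tor := {x | ∃ b : ℕ, 1 ≤ b ∧ b ≤ B ∧ ‖b • x‖ ≤ ε}

lemma measurableSet_Ap (B : ℕ) (ε : ℝ) : MeasurableSet (Ap B ε) := by
  have h : Ap B ε = ⋃ b ∈ Icc 1 B, {x : Tor | ‖b • x‖ ≤ ε} := by
    ext x
    simp only [Ap, Set.mem_ofPred_eq, Set.mem_iUnion, mem_Icc, exists_prop, and_assoc]
  rw [h]
  refine Finset.measurableSet_biUnion _ fun b _ => ?_
  exact (isClosed_le ((continuous_nsmul b).norm) continuous_const).measurableSet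

/-- a representative of minimal absolute value -/
lemma exists_rep (y : Tor) : ∃ u : ℝ, (u : Tor) = y ∧ |u| = ‖y‖ := by
  induction y using QuotientAddGroup.induction_on with
  | H t =>
    refine ⟨t - round t, ?_, ?_⟩
    · have h : ((round t : ℝ) : Tor) = 0 := (AddCircle.coe_eq_zero_iff 1).2 ⟨round t, by simp⟩
      have h2 : ((t - round t : ℝ) : Tor) = (t : Tor) - ((round t : ℝ) : Tor) := rfl
      rw [h2, h, sub_zero]
    · have := AddCircle.norm_eq (p := (1 : ℝ)) (x := t)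
      rw [inv_one, one_mul, mul_one] at this
      exact this.symm

/-- two good approximations agree -/
lemma common {x : Tor} {b b' : ℕ} {u u' : ℝ} (hu : (u : Tor) = b • x) (hu' : (u' : Tor) = b' • x)
    (h : b' * |u| + b * |u'| < 1) : b' * u = b * u' := by
  have h1 : ((b' * u - b * u' : ℝ) : Tor) = 0 := by
    have e1 : ((b' * u - b * u' : ℝ) : Tor) = b' • (u : Tor) - b • (u' : Tor) := by
      rw [← AddCircle.coe_nsmul, ← AddCircle.coe_nsmul, ← AddCircle.coe_sub, nsmul_eq_mul,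
        nsmul_eq_mul]
    rw [e1, hu, hu', smul_smul, smul_smul, mul_comm, sub_self]
  obtain ⟨n, hn⟩ := (AddCircle.coe_eq_zero_iff 1).1 h1
  rw [zsmul_eq_mul, mul_one] at hn
  have h2 : |(n : ℝ)| < 1 := by
    rw [hn]
    refine lt_of_le_of_lt (abs_sub _ _) ?_
    rw [abs_mul, abs_mul, Nat.abs_cast, Nat.abs_cast]
    exact h
  have h3 : n = 0 := by
    have h4 : |n| < 1 := by exact_mod_cast h2
    exact Int.abs_lt_one_iff.1 h4
  rw [h3] at hn
  push_cast at hn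
  linarith

/-- If `x` is very well approximated at all the scales `j ≥ j₀`, then `x` is rational. -/
lemma torsion_of_approx (x : Tor) (b : ℕ → ℕ) (e : ℕ → ℝ) (j₀ : ℕ) (hb : ∀ j, j₀ ≤ j → 1 ≤ b j)
    (hx : ∀ j, j₀ ≤ j → ‖b j • x‖ ≤ e j)
    (hc : ∀ j, j₀ ≤ j → b (j + 1) * e j + b j * e (j + 1) < 1)
    (he : ∀ δ : ℝ, 0 < δ → ∃ j, j₀ ≤ j ∧ e j < δ) : b j₀ • x = 0 := by
  choose u hu hu' using fun j => exists_rep (b j • x)
  have hcons : ∀ j, j₀ ≤ j → (b (j + 1) : ℝ) * u j = b j * u (j + 1) := by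
    intro j hj
    refine common (hu j) (hu (j + 1)) (lt_of_le_of_lt ?_ (hc j hj))
    rw [hu', hu']
    exact add_le_add (mul_le_mul_of_nonneg_left (hx j hj) (Nat.cast_nonneg _))
      (mul_le_mul_of_nonneg_left (hx (j + 1) (by omega)) (Nat.cast_nonneg _))
  have hall : ∀ k, (b (j₀ + k) : ℝ) * u j₀ = b j₀ * u (j₀ + k) := by
    intro k
    induction k with
    | zero => rfl
    | succ k ih =>
      have h1 := hcons (j₀ + k) (by omega)
      have h2 : (0 : ℝ) < b (j₀ + k) := by exact_mod_cast hb (j₀ + k) (by omega)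
      have h3 : (b (j₀ + k) : ℝ) * (b (j₀ + k + 1) * u j₀) =
          b (j₀ + k) * (b j₀ * u (j₀ + k + 1)) := by
        calc (b (j₀ + k) : ℝ) * (b (j₀ + k + 1) * u j₀)
            = b (j₀ + k + 1) * (b (j₀ + k) * u j₀) := by ring
          _ = b j₀ * (b (j₀ + k + 1) * u (j₀ + k)) := by rw [ih]; ring
          _ = b (j₀ + k) * (b j₀ * u (j₀ + k + 1)) := by rw [h1]; ring
      exact mul_left_cancel₀ h2.ne' h3
  have hb0 : (0 : ℝ) < b j₀ := by exact_mod_cast hb j₀ le_rfl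
  have hzero : u j₀ = 0 := by
    by_contra hne
    have h1 : 0 < |u j₀| / b j₀ := div_pos (abs_pos.2 hne) hb0
    obtain ⟨j, hj, hj'⟩ := he _ h1
    obtain ⟨k, rfl⟩ := Nat.exists_eq_add_of_le hj
    have h2 := hall k
    have h3 : (1 : ℝ) ≤ b (j₀ + k) := by exact_mod_cast hb (j₀ + k) (by omega)
    have h4 : (b (j₀ + k) : ℝ) * |u j₀| = b j₀ * |u (j₀ + k)| := by
      have := congrArg abs h2
      rwa [abs_mul, abs_mul, Nat.abs_cast, Nat.abs_cast] at this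
    have h5 : |u (j₀ + k)| ≤ e (j₀ + k) := by
      rw [hu']
      exact hx (j₀ + k) (by omega)
    rw [lt_div_iff₀ hb0] at hj'
    have h6 : |u j₀| ≤ b (j₀ + k) * |u j₀| := le_mul_of_one_le_left (abs_nonneg _) h3
    nlinarith
  rw [← hu j₀, hzero]
  rfl

/-- the points of order at most `B` -/
lemma torsion_finite (B : ℕ) : ∃ Z : Finset Tor, Z.card ≤ (B + 1) ^ 2 ∧
    ∀ (x : Tor) (b : ℕ), 1 ≤ b → b ≤ B → b • x = 0 → x ∈ Z := by
  classical
  refine ⟨(range (B + 1) ×ˢ range (B + 1)).image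
    (fun p : ℕ × ℕ => (((p.2 : ℝ) / p.1 * 1 : ℝ) : Tor)), ?_, ?_⟩
  · refine Finset.card_image_le.trans ?_
    rw [card_product, card_range, sq]
  · intro x b hb hbB hx
    obtain ⟨m, hm, hmx⟩ := (AddCircle.nsmul_eq_zero_iff hb).1 hx
    rw [mem_image]
    exact ⟨(b, m), by rw [mem_product, mem_range, mem_range]; omega, hmx⟩

/-- light arcs carry entropy -/
lemma light {ν : Measure Tor} [IsProbabilityMeasure ν]
    (h2 : MeasurePreserving (fun x : Tor => (2 : ℕ) • x) ν ν)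
    (h3 : MeasurePreserving (fun x : Tor => (3 : ℕ) • x) ν ν) (a : ℕ) (ha : 1 ≤ a) (K : ℕ) :
    2 * Real.log a * ν.real (Ap (8 ^ a) (2 * 8 ^ a * (1 / 2 ^ K)))ᶜ ≤
      ∑ i ∈ range (2 ^ K), Real.negMulLog (ν.real (arc K i)) := by
  classical
  let T : Finset ℕ := (range (2 ^ K)).filter fun i => (a : ℝ) ^ 2 * ν.real (arc K i) ≤ 1
  have ha0 : (0 : ℝ) < a := by exact_mod_cast ha
  -- points badly approximated are in light arcs
  have hsub : (Ap (8 ^ a) (2 * 8 ^ a * (1 / 2 ^ K)))ᶜ ⊆ ⋃ i ∈ T, arc K i := by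
    intro x hx
    rw [Set.mem_iUnion₂]
    have hlt := Helper75.RE.idx_lt K x
    have hmem : x ∈ arc K (idx K x) := by rw [mem_arc_iff, Nat.mod_eq_of_lt hlt]
    refine ⟨idx K x, ?_, hmem⟩
    rw [mem_filter, mem_range]
    refine ⟨hlt, ?_⟩
    have h4 := ball_le h2 h3 a x (1 / 2 ^ K) (fun b hb1 hb2 => by
      by_contra hcon
      push Not at hcon
      exact hx ⟨b, hb1, by exact_mod_cast hb2, hcon⟩)
    refine le_trans (mul_le_mul_of_nonneg_left ?_ (by positivity)) h4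
    refine measureReal_mono ?_ (measure_ne_top ν _)
    intro y hy
    obtain ⟨t, ht, rfl⟩ := hy
    obtain ⟨t', ht', htx⟩ := hmem
    rw [Metric.mem_closedBall, dist_eq_norm]
    have e : ((t : ℝ) : Tor) - x = ((t - t' : ℝ) : Tor) := by
      rw [← htx]
      rfl
    show ‖((t : ℝ) : Tor) - x‖ ≤ 1 / 2 ^ K
    rw [e]
    have h5 : ‖((t - t' : ℝ) : Tor)‖ ≤ |t - t'| := by
      have h6 := AddCircle.norm_eq (p := (1 : ℝ)) (x := t - t')
      rw [inv_one, one_mul, mul_one] at h6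
      rw [h6]
      have h7 := round_le (t - t') 0
      simpa using h7
    refine h5.trans ?_
    rw [abs_le]
    have h8 : ((idx K x : ℕ) + 1 : ℝ) / 2 ^ K = (idx K x : ℝ) / 2 ^ K + 1 / 2 ^ K := by ring
    rw [Set.mem_Ico, h8] at ht ht'
    constructor <;> linarith [ht.1, ht.2, ht'.1, ht'.2]
  have h5 : ν.real (Ap (8 ^ a) (2 * 8 ^ a * (1 / 2 ^ K)))ᶜ ≤ ∑ i ∈ T, ν.real (arc K i) :=
    (measureReal_mono hsub (measure_ne_top ν _)).trans (measureReal_biUnion_finset_le _ _)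
  have hlog : 0 ≤ Real.log a := Real.log_nonneg (by exact_mod_cast ha)
  calc 2 * Real.log a * ν.real (Ap (8 ^ a) (2 * 8 ^ a * (1 / 2 ^ K)))ᶜ
      ≤ 2 * Real.log a * ∑ i ∈ T, ν.real (arc K i) :=
        mul_le_mul_of_nonneg_left h5 (by positivity)
    _ = ∑ i ∈ T, 2 * Real.log a * ν.real (arc K i) := by rw [Finset.mul_sum]
    _ ≤ ∑ i ∈ T, Real.negMulLog (ν.real (arc K i)) := by
        refine Finset.sum_le_sum fun i hi => ?_
        rw [mem_filter] at hi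
        rcases (measureReal_nonneg (μ := ν) (s := arc K i)).eq_or_lt with h6 | h6
        · rw [← h6, mul_zero, Real.negMulLog_zero]
        · have h7 : Real.log ((a : ℝ) ^ 2 * ν.real (arc K i)) ≤ 0 :=
            Real.log_nonpos (by positivity) hi.2
          rw [Real.log_mul (by positivity) h6.ne', Real.log_pow] at h7
          push_cast at h7
          unfold Real.negMulLog
          nlinarith
    _ ≤ ∑ i ∈ range (2 ^ K), Real.negMulLog (ν.real (arc K i)) := by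
        refine Finset.sum_le_sum_of_subset_of_nonneg (Finset.filter_subset _ _) fun i _ _ => ?_
        exact Real.negMulLog_nonneg measureReal_nonneg measureReal_le_one

/-- the scales -/
lemma scale_cond (j : ℕ) (hj : 2 ≤ j) :
    3 * (2 ^ (2 ^ j - 3) + 2 ^ (2 ^ (j + 1) - 3)) + 3 ≤ 2 ^ (2 ^ (j + 1)) := by
  have h1 : 2 ^ 2 ≤ 2 ^ j := Nat.pow_le_pow_right (by norm_num) hj
  have h2 : 2 ^ (j + 1) = 2 * 2 ^ j := by ring
  have h3 : 2 ^ (2 ^ j - 3) ≤ 2 ^ (2 ^ (j + 1) - 3) := Nat.pow_le_pow_right (by norm_num) (by omega)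
  have h4 : 2 ^ (2 ^ (j + 1)) = 8 * 2 ^ (2 ^ (j + 1) - 3) := by
    have : 2 ^ (j + 1) = 2 ^ (j + 1) - 3 + 3 := by omega
    conv_lhs => rw [this]
    rw [pow_add]
    ring
  have h5 : 2 ^ 1 ≤ 2 ^ (2 ^ (j + 1) - 3) := Nat.pow_le_pow_right (by norm_num) (by omega)
  omega

/-- **Growth of the entropy.**  For `×2, ×3`-invariant probability measures on the circle with small
atoms the sum of `2 ^ (-j) * H (2 ^ (2 ^ j))`, `j ≥ j₀`, exceeds an absolute constant. -/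
theorem gap (j₀ : ℕ) (hj₀ : 3 ≤ j₀) : ∃ c : ℝ, 0 < c ∧ ∀ ν : Measure Tor, IsProbabilityMeasure ν →
    MeasurePreserving (fun x : Tor => (2 : ℕ) • x) ν ν →
    MeasurePreserving (fun x : Tor => (3 : ℕ) • x) ν ν → (∀ x, ν.real {x} < c) →
    ∃ J : ℕ, 1 / 12 < ∑ j ∈ Ico j₀ J,
      (∑ i ∈ range (2 ^ (2 ^ (2 ^ j))), Real.negMulLog (ν.real (arc (2 ^ (2 ^ j)) i))) / 2 ^ j := by
  obtain ⟨k₀, rfl⟩ : ∃ k₀, j₀ = k₀ + 1 := ⟨j₀ - 1, by omega⟩
  have hk₀ : 2 ≤ k₀ := by omega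
  -- the parameters
  obtain ⟨a, ha⟩ : ∃ a : ℕ → ℕ, a = fun j => 2 ^ (2 ^ j - 3) := ⟨_, rfl⟩
  obtain ⟨κ, hκ⟩ : ∃ κ : ℕ → ℕ, κ = fun j => 2 ^ (2 ^ (j + 1)) := ⟨_, rfl⟩
  obtain ⟨e, he⟩ : ∃ e : ℕ → ℝ, e = fun j => 2 * 8 ^ a j * (1 / 2 ^ κ j) := ⟨_, rfl⟩
  have ha1 : ∀ j, 1 ≤ a j := fun j => by rw [ha]; exact Nat.one_le_two_pow
  have hsc : ∀ j, 2 ≤ j → 3 * (a j + a (j + 1)) + 3 ≤ κ j := fun j hj => by
    rw [ha, hκ]
    exact scale_cond j hj
  have hc : ∀ j, 2 ≤ j → (8 : ℝ) ^ a (j + 1) * e j + 8 ^ a j * e (j + 1) < 1 := by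
    intro j hj
    have h1 := hsc j hj
    have h2 : κ j ≤ κ (j + 1) := by
      rw [hκ]
      exact Nat.pow_le_pow_right (by norm_num) (Nat.pow_le_pow_right (by norm_num) (by omega))
    have h3 : (8 : ℝ) ^ (a j + a (j + 1)) * 8 ≤ 2 ^ κ j := by
      have h4 : (8 : ℝ) ^ (a j + a (j + 1)) * 8 = 2 ^ (3 * (a j + a (j + 1)) + 3) := by
        rw [pow_add 2, pow_mul]
        norm_num
      rw [h4]
      exact pow_le_pow_right₀ (by norm_num) h1
    have h5 : (2 : ℝ) ^ κ j ≤ 2 ^ κ (j + 1) := pow_le_pow_right₀ (by norm_num) h2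
    have h6 : (0 : ℝ) < 2 ^ κ j := by positivity
    have h7 : (0 : ℝ) < 2 ^ κ (j + 1) := by positivity
    have h8 : (8 : ℝ) ^ a (j + 1) * e j = 2 * 8 ^ (a j + a (j + 1)) / 2 ^ κ j := by
      rw [he, pow_add]
      field_simp
    have h9 : (8 : ℝ) ^ a j * e (j + 1) = 2 * 8 ^ (a j + a (j + 1)) / 2 ^ κ (j + 1) := by
      rw [he, pow_add]
      field_simp
    have h10 : (2 : ℝ) * 8 ^ (a j + a (j + 1)) / 2 ^ κ j ≤ 1 / 4 := by
      rw [div_le_iff₀ h6]
      linarith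
    have h11 : (2 : ℝ) * 8 ^ (a j + a (j + 1)) / 2 ^ κ (j + 1) ≤ 1 / 4 := by
      rw [div_le_iff₀ h7]
      linarith
    rw [h8, h9]
    linarith
  have hlim : ∀ δ : ℝ, 0 < δ → ∃ j, k₀ ≤ j ∧ e j < δ := by
    intro δ hδ
    obtain ⟨n, hn⟩ := exists_pow_lt_of_lt_one hδ (by norm_num : (1 / 2 : ℝ) < 1)
    refine ⟨k₀ + n, by omega, lt_of_le_of_lt ?_ hn⟩
    have h1 := hsc (k₀ + n) (by omega)
    have h2 : e (k₀ + n) = 2 * 8 ^ a (k₀ + n) / 2 ^ κ (k₀ + n) := by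
      rw [he]
      ring
    have h3 : n ≤ a (k₀ + n + 1) := by
      rw [ha]
      have h4 : k₀ + n < 2 ^ (k₀ + n) := Nat.lt_two_pow_self
      have h5 : 2 ^ (k₀ + n + 1) = 2 * 2 ^ (k₀ + n) := by ring
      have h6 : 2 ^ 2 ≤ 2 ^ (k₀ + n) := Nat.pow_le_pow_right (by norm_num) (by omega)
      have h7 : 2 ^ (k₀ + n + 1) - 3 < 2 ^ (2 ^ (k₀ + n + 1) - 3) := Nat.lt_two_pow_self
      show n ≤ 2 ^ (2 ^ (k₀ + n + 1) - 3)
      omega
    rw [h2, one_div, inv_pow, div_le_iff₀ (by positivity)]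
    have h4 : (2 : ℝ) * 8 ^ a (k₀ + n) = 2 ^ (3 * a (k₀ + n) + 1) := by
      rw [pow_succ, pow_mul]
      norm_num
      ring
    have h5 : (2 : ℝ) ^ (3 * a (k₀ + n) + 1) * 2 ^ n ≤ 2 ^ κ (k₀ + n) := by
      rw [← pow_add]
      exact pow_le_pow_right₀ (by norm_num) (by omega)
    rw [h4]
    have h6 : (0 : ℝ) < 2 ^ n := by positivity
    rw [inv_mul_eq_div, le_div_iff₀ h6]
    exact h5
  obtain ⟨Z, hZ, hZt⟩ := torsion_finite (8 ^ a k₀)
  refine ⟨1 / (2 * (8 ^ a k₀ + 1) ^ 2), by positivity, fun ν hν h2 h3 hat => ?_⟩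
  obtain ⟨A, hA⟩ : ∃ A : ℕ → Set Tor, A = fun j => Ap (8 ^ a j) (e j) := ⟨_, rfl⟩
  have hAm : ∀ j, MeasurableSet (A j) := fun j => by rw [hA]; exact measurableSet_Ap _ _
  -- the measures of the complements are not summable
  obtain ⟨J, hJ⟩ : ∃ J, 1 / 2 < ∑ j ∈ Ico k₀ J, ν.real (A j)ᶜ := by
    by_contra hcon
    push Not at hcon
    have h4 : ν.real (⋃ j ∈ {j : ℕ | k₀ ≤ j}, (A j)ᶜ) ≤ 1 / 2 := by
      have h5 : (⋃ j ∈ {j : ℕ | k₀ ≤ j}, (A j)ᶜ) = ⋃ J : ℕ, ⋃ j ∈ Ico k₀ J, (A j)ᶜ := by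
        ext x
        simp only [Set.mem_iUnion, mem_Ico, exists_prop, Set.mem_ofPred_eq]
        constructor
        · rintro ⟨j, hj, hx⟩
          exact ⟨j + 1, j, ⟨hj, Nat.lt_succ_self j⟩, hx⟩
        · rintro ⟨J, j, hj, hx⟩
          exact ⟨j, hj.1, hx⟩
      have hmono : Monotone fun J : ℕ => ⋃ j ∈ Ico k₀ J, (A j)ᶜ := by
        intro J J' hJJ
        apply Set.biUnion_subset_biUnion_left
        intro j hj
        rw [Finset.mem_coe, mem_Ico] at hj ⊢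
        exact ⟨hj.1, lt_of_lt_of_le hj.2 hJJ⟩
      have h6 := tendsto_measure_iUnion_atTop (μ := ν) hmono
      have h7 := (ENNReal.tendsto_toReal (measure_ne_top ν _)).comp h6
      rw [h5]
      refine le_of_tendsto h7 (Eventually.of_forall fun J => ?_)
      exact (measureReal_biUnion_finset_le _ _).trans (hcon J)
    have h5 : (⋃ j ∈ {j : ℕ | k₀ ≤ j}, (A j)ᶜ)ᶜ ⊆ (Z : Set Tor) := by
      intro x hx
      rw [Set.mem_compl_iff, Set.mem_iUnion₂] at hx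
      push Not at hx
      have hx' : ∀ j, ∃ b : ℕ, k₀ ≤ j → 1 ≤ b ∧ b ≤ 8 ^ a j ∧ ‖b • x‖ ≤ e j := by
        intro j
        by_cases hj : k₀ ≤ j
        · have h6 := hx j hj
          rw [Set.notMem_compl_iff, hA] at h6
          obtain ⟨b, hb⟩ := h6
          exact ⟨b, fun _ => hb⟩
        · exact ⟨0, fun h => absurd h hj⟩
      choose b hb using hx'
      have h6 := torsion_of_approx x b e k₀ (fun j hj => (hb j hj).1) (fun j hj => (hb j hj).2.2)
        (fun j hj => ?_) hlim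
      · exact Finset.mem_coe.2 (hZt x (b k₀) (hb k₀ le_rfl).1 (hb k₀ le_rfl).2.1 h6)
      · refine lt_of_le_of_lt ?_ (hc j (by omega))
        have he0 : ∀ j, 0 ≤ e j := fun j => by rw [he]; positivity
        have h7 : (b (j + 1) : ℝ) ≤ 8 ^ a (j + 1) := by exact_mod_cast (hb (j + 1) (by omega)).2.1
        have h8 : (b j : ℝ) ≤ 8 ^ a j := by exact_mod_cast (hb j hj).2.1
        exact add_le_add (mul_le_mul_of_nonneg_right h7 (he0 _))
          (mul_le_mul_of_nonneg_right h8 (he0 _))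
    have h6 : (1 : ℝ) ≤ ν.real (⋃ j ∈ {j : ℕ | k₀ ≤ j}, (A j)ᶜ) +
        ν.real (⋃ j ∈ {j : ℕ | k₀ ≤ j}, (A j)ᶜ)ᶜ := by
      have h7 := measureReal_union_le (μ := ν) (⋃ j ∈ {j : ℕ | k₀ ≤ j}, (A j)ᶜ)
        (⋃ j ∈ {j : ℕ | k₀ ≤ j}, (A j)ᶜ)ᶜ
      rwa [Set.union_compl_self, probReal_univ] at h7
    have h7 : ν.real (Z : Set Tor) < 1 / 2 := by
      have h8 : ν.real (Z : Set Tor) ≤ ∑ x ∈ Z, ν.real {x} := by
        have h9 : (Z : Set Tor) = ⋃ x ∈ Z, {x} := by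
          ext x
          simp
        calc ν.real (Z : Set Tor) = ν.real (⋃ x ∈ Z, {x}) := by rw [← h9]
          _ ≤ _ := measureReal_biUnion_finset_le _ _
      rcases Z.eq_empty_or_nonempty with h9 | h9
      · rw [h9] at h8 ⊢
        rw [Finset.sum_empty] at h8
        linarith
      · have h10 : ∑ x ∈ Z, ν.real {x} < ∑ x ∈ Z, 1 / (2 * ((8 : ℝ) ^ a k₀ + 1) ^ 2) :=
          Finset.sum_lt_sum_of_nonempty h9 fun x _ => hat x
        rw [Finset.sum_const, nsmul_eq_mul] at h10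
        have h11 : (Z.card : ℝ) ≤ (8 ^ a k₀ + 1) ^ 2 := by exact_mod_cast hZ
        have h12 : (Z.card : ℝ) * (1 / (2 * ((8 : ℝ) ^ a k₀ + 1) ^ 2)) ≤ 1 / 2 := by
          rw [mul_one_div, div_le_div_iff₀ (by positivity) (by norm_num)]
          linarith
        linarith
    have h8 := measureReal_mono h5 (measure_ne_top ν _)
    linarith
  -- the entropies
  refine ⟨J + 1, ?_⟩
  have hterm : ∀ j ∈ Ico k₀ J, 1 / 6 * ν.real (A j)ᶜ ≤
      (∑ i ∈ range (2 ^ (2 ^ (2 ^ (j + 1)))),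
        Real.negMulLog (ν.real (arc (2 ^ (2 ^ (j + 1))) i))) / 2 ^ (j + 1) := by
    intro j hj
    rw [mem_Ico] at hj
    have h4 := light h2 h3 (a j) (ha1 j) (κ j)
    have h5 : ν.real (A j)ᶜ = ν.real (Ap (8 ^ a j) (2 * 8 ^ a j * (1 / 2 ^ κ j)))ᶜ := by
      rw [hA, he]
    rw [← h5] at h4
    have h6 : κ j = 2 ^ (2 ^ (j + 1)) := by rw [hκ]
    rw [h6] at h4
    rw [le_div_iff₀ (by positivity)]
    refine le_trans ?_ h4
    have h7 : (2 : ℝ) ^ (j + 1) * (1 / 6) ≤ 2 * Real.log (a j) := by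
      have h8 : Real.log (a j) = ((2 ^ j - 3 : ℕ) : ℝ) * Real.log 2 := by
        rw [ha]
        push_cast
        rw [Real.log_pow]
      rw [h8]
      have h9 : 2 ^ 2 ≤ 2 ^ j := Nat.pow_le_pow_right (by norm_num) (by omega)
      have h10 : ((2 ^ j - 3 : ℕ) : ℝ) = 2 ^ j - 3 := by
        rw [Nat.cast_sub (by omega)]
        push_cast
        rfl
      rw [h10]
      have h11 : (4 : ℝ) ≤ 2 ^ j := by exact_mod_cast h9
      have h12 := Real.log_two_gt_d9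
      rw [pow_succ]
      nlinarith
    have h8 : (0 : ℝ) ≤ ν.real (A j)ᶜ := measureReal_nonneg
    nlinarith
  have hshift : ∑ j ∈ Ico k₀ J, (∑ i ∈ range (2 ^ (2 ^ (2 ^ (j + 1)))),
        Real.negMulLog (ν.real (arc (2 ^ (2 ^ (j + 1))) i))) / 2 ^ (j + 1) =
      ∑ j ∈ Ico (k₀ + 1) (J + 1), (∑ i ∈ range (2 ^ (2 ^ (2 ^ j))),
        Real.negMulLog (ν.real (arc (2 ^ (2 ^ j)) i))) / 2 ^ j :=
    Finset.sum_Ico_add' (fun j => (∑ i ∈ range (2 ^ (2 ^ (2 ^ j))),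
        Real.negMulLog (ν.real (arc (2 ^ (2 ^ j)) i))) / (2 : ℝ) ^ j) k₀ J 1
  rw [← hshift]
  refine lt_of_lt_of_le ?_ (Finset.sum_le_sum hterm)
  rw [← Finset.mul_sum]
  linarith

/-- For measures without atoms the sum diverges. -/
theorem not_summable_ent {ν : Measure Tor} [hν : IsProbabilityMeasure ν]
    (h2 : MeasurePreserving (fun x : Tor => (2 : ℕ) • x) ν ν)
    (h3 : MeasurePreserving (fun x : Tor => (3 : ℕ) • x) ν ν) (h0 : ∀ x, ν {x} = 0) :
    ¬ Summable fun j : ℕ =>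
      (∑ i ∈ range (2 ^ (2 ^ (2 ^ j))), Real.negMulLog (ν.real (arc (2 ^ (2 ^ j)) i))) / 2 ^ j := by
  intro hs
  have hnn : ∀ j : ℕ, 0 ≤ (∑ i ∈ range (2 ^ (2 ^ (2 ^ j))),
      Real.negMulLog (ν.real (arc (2 ^ (2 ^ j)) i))) / (2 : ℝ) ^ j := fun j =>
    div_nonneg (Finset.sum_nonneg fun i _ =>
      Real.negMulLog_nonneg measureReal_nonneg measureReal_le_one) (by positivity)
  obtain ⟨s, hs'⟩ := summable_iff_vanishing_norm.1 hs (1 / 12) (by norm_num)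
  obtain ⟨N, hN⟩ := s.exists_nat_subset_range
  obtain ⟨c, hc, h⟩ := gap (N + 3) (by omega)
  obtain ⟨J, hJ⟩ := h ν hν h2 h3 fun x => by
    rw [measureReal_def, h0 x, ENNReal.toReal_zero]
    exact hc
  have h4 := hs' (Ico (N + 3) J) (by
    rw [Finset.disjoint_left]
    intro j hj hjs
    rw [mem_Ico] at hj
    have := mem_range.1 (hN hjs)
    omega)
  rw [Real.norm_of_nonneg (Finset.sum_nonneg fun j _ => hnn j)] at h4
  linarith

end Helper17.GH
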