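import Mathlib
import Pool.Agent.Helper17.GH.Gap

/-!
# The growth of the entropy and Diophantine approximation

`dio`: for an ergodic `×2, ×3`-invariant measure and `k ≥ 1`, `c < 2 / k`, either almost every point
is very well approximable, or the entropy on the dyadic arcs of length `2 ^ (-K)` is at least
`c log K` for all large `K`.
-/

set_option autoImplicit false

open MeasureTheory Finset Filter Topology

namespace Helper17.GH

open Helper75.LP
open Helper58.FX (ft Erg T)
open Helper75.RE (arc)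

/-- the points `x` with `‖b x‖ ≥ exp (-C (1 + log b) ^ k)` for all `b` -/
def Gk (k C : ℝ) : Set Tor :=
  {x | ∀ b : ℕ, 1 ≤ b → Real.exp (-(C * (1 + Real.log b) ^ k)) ≤ ‖b • x‖}

lemma measurableSet_Gk (k C : ℝ) : MeasurableSet (Gk k C) := by
  have h : Gk k C = ⋂ b : ℕ, ⋂ _ : 1 ≤ b,
      {x : Tor | Real.exp (-(C * (1 + Real.log b) ^ k)) ≤ ‖b • x‖} := by
    ext x
    simp only [Gk, Set.mem_ofPred_eq, Set.mem_iInter]
  rw [h]
  refine MeasurableSet.iInter fun b => MeasurableSet.iInter fun _ => ?_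
  exact (isClosed_le continuous_const ((continuous_nsmul b).norm)).measurableSet

lemma one_add_log_pos {b : ℕ} (hb : 1 ≤ b) : 1 ≤ 1 + Real.log b := by
  have : 0 ≤ Real.log b := Real.log_natCast_nonneg b
  linarith

lemma Gk_mono {k C C' : ℝ} (h : C ≤ C') : Gk k C ⊆ Gk k C' := by
  intro x hx b hb
  refine le_trans (Real.exp_le_exp.2 ?_) (hx b hb)
  have h1 : 0 ≤ (1 + Real.log b) ^ k := Real.rpow_nonneg (by linarith [one_add_log_pos hb]) _
  have := mul_le_mul_of_nonneg_right h h1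
  linarith

lemma Gk_smul {k C : ℝ} (hk : 0 ≤ k) (hC : 0 ≤ C) (s : ℕ) (hs : 1 ≤ s) (hs3 : Real.log s ≤ 2)
    (x : Tor) (hx : x ∈ Gk k C) : s • x ∈ Gk k (C * 3 ^ k) := by
  intro b hb
  have hb0 : (0 : ℝ) < b := by exact_mod_cast hb
  have hs0 : (0 : ℝ) < s := by exact_mod_cast hs
  have h1 := hx (b * s) (Nat.one_le_iff_ne_zero.2 (Nat.mul_ne_zero (by omega) (by omega)))
  have h2 : b • (s • x) = (b * s) • x := by rw [← mul_nsmul']
  rw [h2]
  refine le_trans (Real.exp_le_exp.2 ?_) h1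
  have h3 : Real.log ((b * s : ℕ) : ℝ) = Real.log b + Real.log s := by
    push_cast
    exact Real.log_mul hb0.ne' hs0.ne'
  have h4 := one_add_log_pos hb
  have h5 : 0 ≤ Real.log s := Real.log_natCast_nonneg s
  have h6 : (1 + Real.log ((b * s : ℕ) : ℝ)) ^ k ≤ (3 * (1 + Real.log b)) ^ k := by
    refine Real.rpow_le_rpow ?_ ?_ hk
    · rw [h3]
      linarith
    · rw [h3]
      linarith
  rw [Real.mul_rpow (by norm_num) (by linarith)] at h6
  have h7 := mul_le_mul_of_nonneg_left h6 hC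
  linarith

/-- **Entropy or approximation.** -/
theorem dio {ν : Measure Tor} [IsProbabilityMeasure ν]
    (h2 : MeasurePreserving (fun x : Tor => (2 : ℕ) • x) ν ν)
    (h3 : MeasurePreserving (fun x : Tor => (3 : ℕ) • x) ν ν) (hE : Erg (ft ν))
    {k c : ℝ} (hk : 1 ≤ k) (hc : c < 2 / k) :
    (∀ᵐ x ∂ν, ∀ C : ℕ, ∃ b : ℕ, 1 ≤ b ∧ ‖b • x‖ < Real.exp (-(C * (1 + Real.log b) ^ k))) ∨
      ∀ᶠ K : ℕ in atTop, c * Real.log K ≤
        ∑ i ∈ range (2 ^ K), Real.negMulLog (ν.real (arc K i)) := by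
  have hk0 : 0 < k := by linarith
  obtain ⟨U, hU⟩ : ∃ U : Set Tor, U = ⋃ n : ℕ, Gk k n := ⟨_, rfl⟩
  have hUm : MeasurableSet U := by
    rw [hU]
    exact MeasurableSet.iUnion fun n => measurableSet_Gk k n
  have hUs : ∀ s : ℕ, 1 ≤ s → Real.log s ≤ 2 → ∀ x ∈ U, s • x ∈ U := by
    intro s hs hs2 x hx
    rw [hU, Set.mem_iUnion] at hx ⊢
    obtain ⟨n, hn⟩ := hx
    obtain ⟨m, hm⟩ := exists_nat_ge ((n : ℝ) * 3 ^ k)
    exact ⟨m, Gk_mono hm (Gk_smul hk0.le (Nat.cast_nonneg n) s hs hs2 x hn)⟩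
  have hlog2 : Real.log ((2 : ℕ) : ℝ) ≤ 2 := by
    have := Real.log_le_sub_one_of_pos (show (0 : ℝ) < ((2 : ℕ) : ℝ) by norm_num)
    push_cast at this ⊢
    linarith
  have hlog3 : Real.log ((3 : ℕ) : ℝ) ≤ 2 := by
    have := Real.log_le_sub_one_of_pos (show (0 : ℝ) < ((3 : ℕ) : ℝ) by norm_num)
    push_cast at this ⊢
    linarith
  rcases erg_sets h2 h3 hE U hUm (fun x hx => hUs 2 (by norm_num) hlog2 x hx)
    (fun x hx => hUs 3 (by norm_num) hlog3 x hx) with h4 | h4
  · left
    have h5 : ∀ᵐ x ∂ν, x ∉ U := by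
      rw [ae_iff]
      simpa using h4
    filter_upwards [h5] with x hx C
    have h6 : x ∉ Gk k C := fun h => hx (by rw [hU, Set.mem_iUnion]; exact ⟨C, h⟩)
    unfold Gk at h6
    simp only [Set.mem_ofPred_eq, not_forall, not_le] at h6
    obtain ⟨b, hb, h7⟩ := h6
    exact ⟨b, hb, h7⟩
  · right
    -- a constant
    have hmono : Monotone fun n : ℕ => Gk k n := fun a b hab => Gk_mono (by exact_mod_cast hab)
    have h5 : Tendsto (fun n : ℕ => ν.real (Gk k n)) atTop (𝓝 1) := by
      have h6 := tendsto_measure_iUnion_atTop (μ := ν) hmono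
      rw [← hU, h4] at h6
      have h7 := (ENNReal.tendsto_toReal ENNReal.one_ne_top).comp h6
      rw [ENNReal.toReal_one] at h7
      exact h7
    have h6 : c * k / 2 < 1 := by
      rw [lt_div_iff₀ hk0] at hc
      linarith
    obtain ⟨n, hn⟩ := (h5.eventually (lt_mem_nhds h6)).exists
    obtain ⟨p, hp⟩ : ∃ p, p = ν.real (Gk k n) := ⟨_, rfl⟩
    rw [← hp] at hn
    have hp0 : 0 ≤ p := hp ▸ measureReal_nonneg
    obtain ⟨C, hC⟩ : ∃ C : ℝ, C = n := ⟨_, rfl⟩
    have hC0 : 0 ≤ C := hC ▸ Nat.cast_nonneg n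
    have hlog2p : 0 < Real.log 2 := Real.log_pos (by norm_num)
    have hlog2l : Real.log 2 < 1 := by
      have := Real.log_two_lt_d9
      linarith
    have hlog8 : Real.log 8 = 3 * Real.log 2 := by
      rw [show (8 : ℝ) = 2 ^ 3 by norm_num, Real.log_pow]
      norm_num
    obtain ⟨E, hEd⟩ : ∃ E : ℝ, E = (1 + Real.log 8) ^ k := ⟨_, rfl⟩
    have hE0 : 0 < E := by
      rw [hEd, hlog8]
      exact Real.rpow_pos_of_pos (by linarith) _
    obtain ⟨ρ, hρ⟩ : ∃ ρ : ℝ, ρ = Real.log 2 / (2 * (C + 1) * E) := ⟨_, rfl⟩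
    have hρ0 : 0 < ρ := by rw [hρ]; positivity
    -- the asymptotics
    have hT1 : Tendsto (fun K : ℕ => (ρ * K) ^ (1 / k)) atTop atTop :=
      (tendsto_rpow_atTop (by positivity)).comp
        (tendsto_natCast_atTop_atTop.const_mul_atTop hρ0)
    have hT2 : Tendsto (fun K : ℕ => (2 * p / k - c) * Real.log K) atTop atTop := by
      refine (Real.tendsto_log_atTop.comp tendsto_natCast_atTop_atTop).const_mul_atTop ?_
      have : c < 2 * p / k := by
        rw [lt_div_iff₀ hk0]
        linarith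
      linarith
    filter_upwards [hT1.eventually_ge_atTop 2,
      hT2.eventually_ge_atTop (2 * p * (Real.log 2 - (1 / k) * Real.log ρ)),
      eventually_ge_atTop 1] with K hK1 hK2 hK3
    have hKp : (0 : ℝ) < K := by exact_mod_cast hK3
    obtain ⟨a, ha⟩ : ∃ a : ℕ, a = ⌊(ρ * K) ^ (1 / k)⌋₊ := ⟨_, rfl⟩
    have hy0 : 0 ≤ (ρ * K) ^ (1 / k) := by linarith
    have ha1 : (a : ℝ) ≤ (ρ * K) ^ (1 / k) := ha ▸ Nat.floor_le hy0
    have ha2 : (ρ * K) ^ (1 / k) / 2 ≤ a := by
      have := Nat.lt_floor_add_one ((ρ * (K : ℝ)) ^ (1 / k))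
      rw [← ha] at this
      linarith
    have ha3 : 1 ≤ a := by
      have : (1 : ℝ) ≤ a := by linarith
      exact_mod_cast this
    have ha4 : (1 : ℝ) ≤ a := by exact_mod_cast ha3
    -- the points of `Gk` are badly approximable
    have hsub : Gk k n ⊆ (Ap (8 ^ a) (2 * 8 ^ a * (1 / 2 ^ K)))ᶜ := by
      rintro x hx ⟨b, hb1, hb2, hb3⟩
      have h7 := hx b hb1
      have hb0 : (0 : ℝ) < b := by exact_mod_cast hb1
      have h8 : Real.log b ≤ a * Real.log 8 := by
        have h9 : (b : ℝ) ≤ 8 ^ a := by exact_mod_cast hb2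
        have h10 := Real.log_le_log hb0 h9
        rwa [Real.log_pow] at h10
      obtain ⟨t, htd⟩ : ∃ t : ℝ, t = 1 + a * Real.log 8 := ⟨_, rfl⟩
      have ht1 : 1 ≤ t := by
        rw [htd, hlog8]
        nlinarith
      have h9 : (1 + Real.log b) ^ k ≤ t ^ k := by
        refine Real.rpow_le_rpow ?_ (by linarith) hk0.le
        linarith [one_add_log_pos hb1]
      have h10 : t ≤ t ^ k := by
        have := Real.rpow_le_rpow_of_exponent_le ht1 hk
        rwa [Real.rpow_one] at this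
      have h11 : t ^ k ≤ E * (ρ * K) := by
        have h12 : t ≤ (1 + Real.log 8) * a := by
          rw [htd]
          nlinarith
        have h13 : t ^ k ≤ ((1 + Real.log 8) * a) ^ k :=
          Real.rpow_le_rpow (by linarith) h12 hk0.le
        rw [Real.mul_rpow (by rw [hlog8]; linarith) (by linarith), ← hEd] at h13
        refine h13.trans (mul_le_mul_of_nonneg_left ?_ hE0.le)
        have h14 : (a : ℝ) ^ k ≤ ((ρ * K) ^ (1 / k)) ^ k :=
          Real.rpow_le_rpow (by linarith) ha1 hk0.le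
        rw [← Real.rpow_mul (by positivity)] at h14
        have h15 : 1 / k * k = 1 := by field_simp
        rwa [h15, Real.rpow_one] at h14
      have h12 : (C + 1) * t ^ k ≤ K * Real.log 2 / 2 := by
        have h13 := mul_le_mul_of_nonneg_left h11 (show 0 ≤ C + 1 by linarith)
        refine h13.trans (le_of_eq ?_)
        rw [hρ]
        field_simp
      have h13 : Real.log 2 + a * Real.log 8 - K * Real.log 2 < -(C * (1 + Real.log b) ^ k) := by
        have h14 : C * (1 + Real.log b) ^ k ≤ C * t ^ k := mul_le_mul_of_nonneg_left h9 hC0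
        have h15 : 0 < K * Real.log 2 := by positivity
        have h16 : Real.log 2 + a * Real.log 8 ≤ t ^ k := by
          rw [htd] at h10 ⊢
          linarith
        linarith
      have h14 : 2 * 8 ^ a * (1 / 2 ^ K) = Real.exp (Real.log 2 + a * Real.log 8 - K * Real.log 2) := by
        rw [Real.exp_sub, Real.exp_add, Real.exp_nat_mul, Real.exp_nat_mul,
          Real.exp_log (by norm_num), Real.exp_log (by norm_num)]
        ring
      have h15 := Real.exp_lt_exp.2 h13
      rw [← h14, hC] at h15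
      linarith
    have h7 := light h2 h3 a ha3 K
    refine le_trans ?_ h7
    have h8 : p ≤ ν.real (Ap (8 ^ a) (2 * 8 ^ a * (1 / 2 ^ K)))ᶜ :=
      hp ▸ measureReal_mono hsub (measure_ne_top ν _)
    have h9 : (1 / k) * Real.log ρ + (1 / k) * Real.log K - Real.log 2 ≤ Real.log a := by
      have h10 := Real.log_le_log (by positivity) ha2
      rw [Real.log_div (by positivity) (by norm_num), Real.log_rpow (by positivity),
        Real.log_mul hρ0.ne' hKp.ne'] at h10
      linarith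
    have h10 : 0 ≤ Real.log a := Real.log_nonneg ha4
    have h11 : 2 * Real.log a * p ≤
        2 * Real.log a * ν.real (Ap (8 ^ a) (2 * 8 ^ a * (1 / 2 ^ K)))ᶜ :=
      mul_le_mul_of_nonneg_left h8 (by positivity)
    refine le_trans ?_ h11
    have h12 := mul_le_mul_of_nonneg_left h9 hp0
    have h13 : (2 * p / k - c) * Real.log K = 2 * p * ((1 / k) * Real.log K) - c * Real.log K := by
      ring
    rw [h13] at hK2
    nlinarith

end Helper17.GH
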