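import Mathlib
import Pool.Agent.Helper17.GH.Gap
import Pool.Agent.Helper75.RE.Renyi

/-!
# The growth of the sums of powers of `×2, ×3`-invariant measures

`not_summable_pow`: for measures without atoms and `0 < s < 1` the sum of `Z_s (2 ^ j) / 4 ^ ((1 -
s) j)` diverges, `Z_s W` the sum of the `s`-th powers of the masses of the dyadic arcs of length
`2 ^ (-W)`.
-/

set_option autoImplicit false

open MeasureTheory Finset Filter Topology

namespace Helper17.GH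

open Helper75.LP (Tor)
open Helper75.RE (arc idx measurableSet_arc mem_arc_iff powSum)

/-- The complements of the sets of well approximated points are not small. -/
theorem core (a κ : ℕ → ℕ) (hκ : Monotone κ) (k₀ : ℕ)
    (hsc : ∀ j, k₀ ≤ j → 3 * (a j + a (j + 1)) + 3 ≤ κ j)
    (han : ∀ n : ℕ, ∃ j, k₀ ≤ j ∧ n ≤ a (j + 1)) (ν : Measure Tor) [IsProbabilityMeasure ν]
    (hat : ∀ x, ν.real {x} < 1 / (2 * (8 ^ a k₀ + 1) ^ 2)) :
    ∃ J, 1 / 2 < ∑ j ∈ Ico k₀ J, ν.real (Ap (8 ^ a j) (2 * 8 ^ a j * (1 / 2 ^ κ j)))ᶜ := by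
  obtain ⟨e, he⟩ : ∃ e : ℕ → ℝ, e = fun j => 2 * 8 ^ a j * (1 / 2 ^ κ j) := ⟨_, rfl⟩
  have hc : ∀ j, k₀ ≤ j → (8 : ℝ) ^ a (j + 1) * e j + 8 ^ a j * e (j + 1) < 1 := by
    intro j hj
    have h1 := hsc j hj
    have h2 : κ j ≤ κ (j + 1) := hκ (Nat.le_succ j)
    have h3 : (8 : ℝ) ^ (a j + a (j + 1)) * 8 ≤ 2 ^ κ j := by
      have h4 : (8 : ℝ) ^ (a j + a (j + 1)) * 8 = 2 ^ (3 * (a j + a (j + 1)) + 3) := by
        rw [pow_add 2, pow_mul]
        norm_num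
      rw [h4]
      exact pow_le_pow_right₀ (by norm_num) h1
    have h5 : (2 : ℝ) ^ κ j ≤ 2 ^ κ (j + 1) := pow_le_pow_right₀ (by norm_num) h2
    have h6 : (0 : ℝ) < 2 ^ κ j := by positivity
    have h7 : (0 : ℝ) < 2 ^ κ (j + 1) := by positivity
    have h8 : (8 : ℝ) ^ a (j + 1) * e j = 2 * 8 ^ (a j + a (j + 1)) / 2 ^ κ j := by
      rw [he, pow_add]
      field_simp
    have h9 : (8 : ℝ) ^ a j * e (j + 1) = 2 * 8 ^ (a j + a (j + 1)) / 2 ^ κ (j + 1) := by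
      rw [he, pow_add]
      field_simp
    have h10 : (2 : ℝ) * 8 ^ (a j + a (j + 1)) / 2 ^ κ j ≤ 1 / 4 := by
      rw [div_le_iff₀ h6]
      linarith
    have h11 : (2 : ℝ) * 8 ^ (a j + a (j + 1)) / 2 ^ κ (j + 1) ≤ 1 / 4 := by
      rw [div_le_iff₀ h7]
      linarith
    rw [h8, h9]
    linarith
  have hlim : ∀ δ : ℝ, 0 < δ → ∃ j, k₀ ≤ j ∧ e j < δ := by
    intro δ hδ
    obtain ⟨n, hn⟩ := exists_pow_lt_of_lt_one hδ (by norm_num : (1 / 2 : ℝ) < 1)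
    obtain ⟨j, hj, hj'⟩ := han n
    refine ⟨j, hj, lt_of_le_of_lt ?_ hn⟩
    have h1 := hsc j hj
    have h2 : e j = 2 * 8 ^ a j / 2 ^ κ j := by
      rw [he]
      ring
    rw [h2, one_div, inv_pow, div_le_iff₀ (by positivity)]
    have h4 : (2 : ℝ) * 8 ^ a j = 2 ^ (3 * a j + 1) := by
      rw [pow_succ, pow_mul]
      norm_num
      ring
    have h5 : (2 : ℝ) ^ (3 * a j + 1) * 2 ^ n ≤ 2 ^ κ j := by
      rw [← pow_add]
      exact pow_le_pow_right₀ (by norm_num) (by omega)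
    rw [h4]
    have h6 : (0 : ℝ) < 2 ^ n := by positivity
    rw [inv_mul_eq_div, le_div_iff₀ h6]
    exact h5
  obtain ⟨Z, hZ, hZt⟩ := torsion_finite (8 ^ a k₀)
  obtain ⟨A, hA⟩ : ∃ A : ℕ → Set Tor, A = fun j => Ap (8 ^ a j) (e j) := ⟨_, rfl⟩
  have hAm : ∀ j, MeasurableSet (A j) := fun j => by rw [hA]; exact measurableSet_Ap _ _
  have hAe : ∀ j, ν.real (Ap (8 ^ a j) (2 * 8 ^ a j * (1 / 2 ^ κ j)))ᶜ = ν.real (A j)ᶜ := by
    intro j
    rw [hA, he]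
  simp only [hAe]
  by_contra hcon
  push Not at hcon
  have h4 : ν.real (⋃ j ∈ {j : ℕ | k₀ ≤ j}, (A j)ᶜ) ≤ 1 / 2 := by
    have h5 : (⋃ j ∈ {j : ℕ | k₀ ≤ j}, (A j)ᶜ) = ⋃ J : ℕ, ⋃ j ∈ Ico k₀ J, (A j)ᶜ := by
      ext x
      simp only [Set.mem_iUnion, mem_Ico, exists_prop, Set.mem_ofPred_eq]
      constructor
      · rintro ⟨j, hj, hx⟩
        exact ⟨j + 1, j, ⟨hj, Nat.lt_succ_self j⟩, hx⟩
      · rintro ⟨J, j, hj, hx⟩
        exact ⟨j, hj.1, hx⟩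
    have hmono : Monotone fun J : ℕ => ⋃ j ∈ Ico k₀ J, (A j)ᶜ := by
      intro J J' hJJ
      apply Set.biUnion_subset_biUnion_left
      intro j hj
      rw [Finset.mem_coe, mem_Ico] at hj ⊢
      exact ⟨hj.1, lt_of_lt_of_le hj.2 hJJ⟩
    have h6 := tendsto_measure_iUnion_atTop (μ := ν) hmono
    have h7 := (ENNReal.tendsto_toReal (measure_ne_top ν _)).comp h6
    rw [h5]
    refine le_of_tendsto h7 (Eventually.of_forall fun J => ?_)
    exact (measureReal_biUnion_finset_le _ _).trans (hcon J)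
  have h5 : (⋃ j ∈ {j : ℕ | k₀ ≤ j}, (A j)ᶜ)ᶜ ⊆ (Z : Set Tor) := by
    intro x hx
    rw [Set.mem_compl_iff, Set.mem_iUnion₂] at hx
    push Not at hx
    have hx' : ∀ j, ∃ b : ℕ, k₀ ≤ j → 1 ≤ b ∧ b ≤ 8 ^ a j ∧ ‖b • x‖ ≤ e j := by
      intro j
      by_cases hj : k₀ ≤ j
      · have h6 := hx j hj
        rw [Set.notMem_compl_iff, hA] at h6
        obtain ⟨b, hb⟩ := h6
        exact ⟨b, fun _ => hb⟩
      · exact ⟨0, fun h => absurd h hj⟩
    choose b hb using hx'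
    have h6 := torsion_of_approx x b e k₀ (fun j hj => (hb j hj).1) (fun j hj => (hb j hj).2.2)
      (fun j hj => ?_) hlim
    · exact Finset.mem_coe.2 (hZt x (b k₀) (hb k₀ le_rfl).1 (hb k₀ le_rfl).2.1 h6)
    · refine lt_of_le_of_lt ?_ (hc j hj)
      have he0 : ∀ j, 0 ≤ e j := fun j => by rw [he]; positivity
      have h7 : (b (j + 1) : ℝ) ≤ 8 ^ a (j + 1) := by exact_mod_cast (hb (j + 1) (by omega)).2.1
      have h8 : (b j : ℝ) ≤ 8 ^ a j := by exact_mod_cast (hb j hj).2.1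
      exact add_le_add (mul_le_mul_of_nonneg_right h7 (he0 _))
        (mul_le_mul_of_nonneg_right h8 (he0 _))
  have h6 : (1 : ℝ) ≤ ν.real (⋃ j ∈ {j : ℕ | k₀ ≤ j}, (A j)ᶜ) +
      ν.real (⋃ j ∈ {j : ℕ | k₀ ≤ j}, (A j)ᶜ)ᶜ := by
    have h7 := measureReal_union_le (μ := ν) (⋃ j ∈ {j : ℕ | k₀ ≤ j}, (A j)ᶜ)
      (⋃ j ∈ {j : ℕ | k₀ ≤ j}, (A j)ᶜ)ᶜ
    rwa [Set.union_compl_self, probReal_univ] at h7
  have h7 : ν.real (Z : Set Tor) < 1 / 2 := by
    have h8 : ν.real (Z : Set Tor) ≤ ∑ x ∈ Z, ν.real {x} := by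
      have h9 : (Z : Set Tor) = ⋃ x ∈ Z, {x} := by
        ext x
        simp
      calc ν.real (Z : Set Tor) = ν.real (⋃ x ∈ Z, {x}) := by rw [← h9]
        _ ≤ _ := measureReal_biUnion_finset_le _ _
    rcases Z.eq_empty_or_nonempty with h9 | h9
    · rw [h9] at h8 ⊢
      rw [Finset.sum_empty] at h8
      linarith
    · have h10 : ∑ x ∈ Z, ν.real {x} < ∑ x ∈ Z, 1 / (2 * ((8 : ℝ) ^ a k₀ + 1) ^ 2) :=
        Finset.sum_lt_sum_of_nonempty h9 fun x _ => hat x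
      rw [Finset.sum_const, nsmul_eq_mul] at h10
      have h11 : (Z.card : ℝ) ≤ (8 ^ a k₀ + 1) ^ 2 := by exact_mod_cast hZ
      have h12 : (Z.card : ℝ) * (1 / (2 * ((8 : ℝ) ^ a k₀ + 1) ^ 2)) ≤ 1 / 2 := by
        rw [mul_one_div, div_le_div_iff₀ (by positivity) (by norm_num)]
        linarith
      linarith
  have h8 := measureReal_mono h5 (measure_ne_top ν _)
  linarith

/-- light arcs have large sums of powers -/
lemma light_pow {ν : Measure Tor} [IsProbabilityMeasure ν]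
    (h2 : MeasurePreserving (fun x : Tor => (2 : ℕ) • x) ν ν)
    (h3 : MeasurePreserving (fun x : Tor => (3 : ℕ) • x) ν ν) (a : ℕ) (ha : 1 ≤ a) (K : ℕ)
    {s : ℝ} (hs : 0 < s) (hs1 : s < 1) :
    ((a : ℝ) ^ 2) ^ (1 - s) * ν.real (Ap (8 ^ a) (2 * 8 ^ a * (1 / 2 ^ K)))ᶜ ≤ powSum ν s K := by
  classical
  let T : Finset ℕ := (range (2 ^ K)).filter fun i => (a : ℝ) ^ 2 * ν.real (arc K i) ≤ 1
  have ha0 : (0 : ℝ) < a := by exact_mod_cast ha
  -- points badly approximated are in light arcs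
  have hsub : (Ap (8 ^ a) (2 * 8 ^ a * (1 / 2 ^ K)))ᶜ ⊆ ⋃ i ∈ T, arc K i := by
    intro x hx
    rw [Set.mem_iUnion₂]
    have hlt := Helper75.RE.idx_lt K x
    have hmem : x ∈ arc K (idx K x) := by rw [mem_arc_iff, Nat.mod_eq_of_lt hlt]
    refine ⟨idx K x, ?_, hmem⟩
    rw [mem_filter, mem_range]
    refine ⟨hlt, ?_⟩
    have h4 := ball_le h2 h3 a x (1 / 2 ^ K) (fun b hb1 hb2 => by
      by_contra hcon
      push Not at hcon
      exact hx ⟨b, hb1, by exact_mod_cast hb2, hcon⟩)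
    refine le_trans (mul_le_mul_of_nonneg_left ?_ (by positivity)) h4
    refine measureReal_mono ?_ (measure_ne_top ν _)
    intro y hy
    obtain ⟨t, ht, rfl⟩ := hy
    obtain ⟨t', ht', htx⟩ := hmem
    rw [Metric.mem_closedBall, dist_eq_norm]
    have e : ((t : ℝ) : Tor) - x = ((t - t' : ℝ) : Tor) := by
      rw [← htx]
      rfl
    show ‖((t : ℝ) : Tor) - x‖ ≤ 1 / 2 ^ K
    rw [e]
    have h5 : ‖((t - t' : ℝ) : Tor)‖ ≤ |t - t'| := by
      have h6 := AddCircle.norm_eq (p := (1 : ℝ)) (x := t - t')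
      rw [inv_one, one_mul, mul_one] at h6
      rw [h6]
      have h7 := round_le (t - t') 0
      simpa using h7
    refine h5.trans ?_
    rw [abs_le]
    have h8 : ((idx K x : ℕ) + 1 : ℝ) / 2 ^ K = (idx K x : ℝ) / 2 ^ K + 1 / 2 ^ K := by ring
    rw [Set.mem_Ico, h8] at ht ht'
    constructor <;> linarith [ht.1, ht.2, ht'.1, ht'.2]
  have h5 : ν.real (Ap (8 ^ a) (2 * 8 ^ a * (1 / 2 ^ K)))ᶜ ≤ ∑ i ∈ T, ν.real (arc K i) :=
    (measureReal_mono hsub (measure_ne_top ν _)).trans (measureReal_biUnion_finset_le _ _)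
  have hA0 : (0 : ℝ) < ((a : ℝ) ^ 2) ^ (1 - s) := Real.rpow_pos_of_pos (by positivity) _
  calc ((a : ℝ) ^ 2) ^ (1 - s) * ν.real (Ap (8 ^ a) (2 * 8 ^ a * (1 / 2 ^ K)))ᶜ
      ≤ ((a : ℝ) ^ 2) ^ (1 - s) * ∑ i ∈ T, ν.real (arc K i) :=
        mul_le_mul_of_nonneg_left h5 hA0.le
    _ = ∑ i ∈ T, ((a : ℝ) ^ 2) ^ (1 - s) * ν.real (arc K i) := by rw [Finset.mul_sum]
    _ ≤ ∑ i ∈ T, ν.real (arc K i) ^ s := by
        refine Finset.sum_le_sum fun i hi => ?_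
        rw [mem_filter] at hi
        rcases (measureReal_nonneg (μ := ν) (s := arc K i)).eq_or_lt with h6 | h6
        · rw [← h6, mul_zero, Real.zero_rpow hs.ne']
        · have h7 : (((a : ℝ) ^ 2) * ν.real (arc K i)) ^ (1 - s) ≤ 1 :=
            Real.rpow_le_one (by positivity) hi.2 (by linarith)
          rw [Real.mul_rpow (by positivity) h6.le] at h7
          have h8 : ν.real (arc K i) = ν.real (arc K i) ^ (1 - s) * ν.real (arc K i) ^ s := by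
            rw [← Real.rpow_add h6]
            norm_num
          have h9 : (0 : ℝ) < ν.real (arc K i) ^ s := Real.rpow_pos_of_pos h6 _
          calc ((a : ℝ) ^ 2) ^ (1 - s) * ν.real (arc K i)
              = (((a : ℝ) ^ 2) ^ (1 - s) * ν.real (arc K i) ^ (1 - s)) *
                  ν.real (arc K i) ^ s := by
                rw [mul_assoc, ← h8]
            _ ≤ 1 * ν.real (arc K i) ^ s := mul_le_mul_of_nonneg_right h7 h9.le
            _ = _ := one_mul _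
    _ ≤ ∑ i ∈ range (2 ^ K), ν.real (arc K i) ^ s := by
        refine Finset.sum_le_sum_of_subset_of_nonneg (Finset.filter_subset _ _) fun i _ _ => ?_
        exact Real.rpow_nonneg measureReal_nonneg _

/-- **Growth of the sums of powers.**  For `×2, ×3`-invariant probability measures on the circle
without atoms and all `0 < s < 1`, the sums of `s`-th powers are infinitely often larger than
`W ^ c`, for every `c < 2 (1 - s)`. -/
theorem frequently_pow {ν : Measure Tor} [hν : IsProbabilityMeasure ν]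
    (h2 : MeasurePreserving (fun x : Tor => (2 : ℕ) • x) ν ν)
    (h3 : MeasurePreserving (fun x : Tor => (3 : ℕ) • x) ν ν) (h0 : ∀ x, ν {x} = 0)
    {s c : ℝ} (hs : 0 < s) (hs1 : s < 1) (hc : c < 2 * (1 - s)) :
    ∃ᶠ W : ℕ in atTop, (W : ℝ) ^ c < powSum ν s W := by
  intro hcon
  -- eventually `Z_s W ≤ W ^ c`
  obtain ⟨W₀, hW₀⟩ := eventually_atTop.1 hcon
  obtain ⟨ρ, hρ⟩ : ∃ ρ : ℝ, ρ = 2 ^ (c - 2 * (1 - s)) := ⟨_, rfl⟩
  have hρ0 : 0 < ρ := hρ ▸ Real.rpow_pos_of_pos (by norm_num) _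
  have hρ1 : ρ < 1 := by
    rw [hρ]
    exact Real.rpow_lt_one_of_one_lt_of_neg (by norm_num) (by linarith)
  have hsum : Summable fun j : ℕ => (256 : ℝ) ^ (1 - s) * ρ ^ j :=
    (summable_geometric_of_lt_one hρ0.le hρ1).mul_left _
  obtain ⟨S, hS⟩ := summable_iff_vanishing_norm.1 hsum (1 / 2) (by norm_num)
  obtain ⟨N, hN⟩ := S.exists_nat_subset_range
  obtain ⟨k₀, hk₀⟩ : ∃ k₀, k₀ = N + W₀ + 4 := ⟨_, rfl⟩
  obtain ⟨J, hJ⟩ := core (fun j => 2 ^ (j - 4)) (fun j => 2 ^ j)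
    (fun i j hij => Nat.pow_le_pow_right (by norm_num) hij) k₀ (fun j hj => by
      have h4 : 2 ^ j = 16 * 2 ^ (j - 4) := by
        have : j = j - 4 + 4 := by omega
        conv_lhs => rw [this]
        rw [pow_add]
        ring
      have h5 : 2 ^ (j + 1 - 4) = 2 * 2 ^ (j - 4) := by
        have : j + 1 - 4 = j - 4 + 1 := by omega
        rw [this, pow_succ]
        ring
      have h6 : 1 ≤ 2 ^ (j - 4) := Nat.one_le_two_pow
      show 3 * (2 ^ (j - 4) + 2 ^ (j + 1 - 4)) + 3 ≤ 2 ^ j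
      omega) (fun n => ⟨k₀ + n, by omega, by
        have h4 : n < 2 ^ n := Nat.lt_two_pow_self
        have h5 : 2 ^ n ≤ 2 ^ (k₀ + n + 1 - 4) := Nat.pow_le_pow_right (by norm_num) (by omega)
        show n ≤ 2 ^ (k₀ + n + 1 - 4)
        omega⟩) ν (fun x => by
          rw [measureReal_def, h0 x, ENNReal.toReal_zero]
          positivity)
  have hterm : ∀ j ∈ Ico k₀ J, ν.real (Ap (8 ^ (2 ^ (j - 4)))
      (2 * 8 ^ (2 ^ (j - 4)) * (1 / 2 ^ (2 ^ j))))ᶜ ≤ (256 : ℝ) ^ (1 - s) * ρ ^ j := by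
    intro j hj
    rw [mem_Ico] at hj
    have h4 := light_pow h2 h3 (2 ^ (j - 4)) Nat.one_le_two_pow (2 ^ j) hs hs1
    have h5 : W₀ ≤ 2 ^ j := by
      have : j < 2 ^ j := Nat.lt_two_pow_self
      omega
    have h6 := not_lt.1 (hW₀ (2 ^ j) h5)
    have h7 := h4.trans h6
    push_cast at h7
    have h8 : (((2 : ℝ) ^ (j - 4)) ^ 2) ^ (1 - s) * 256 ^ (1 - s) = (2 : ℝ) ^ (2 * (1 - s) * j) := by
      rw [← Real.mul_rpow (by positivity) (by norm_num)]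
      have h9 : ((2 : ℝ) ^ (j - 4)) ^ 2 * 256 = (2 : ℝ) ^ (2 * j) := by
        have h10 : (2 : ℝ) ^ (2 * j) = 2 ^ (2 * (j - 4) + 8) := by
          congr 1
          omega
        rw [h10, pow_add, pow_mul']
        norm_num
      rw [h9, ← Real.rpow_natCast, ← Real.rpow_mul (by norm_num)]
      congr 1
      push_cast
      ring
    have h9 : ((2 : ℝ) ^ j) ^ c = (2 : ℝ) ^ (c * j) := by
      rw [← Real.rpow_natCast, ← Real.rpow_mul (by norm_num)]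
      congr 1
      ring
    have h10 : ρ ^ j * (2 : ℝ) ^ (2 * (1 - s) * j) = (2 : ℝ) ^ (c * j) := by
      rw [hρ, ← Real.rpow_natCast, ← Real.rpow_mul (by norm_num), ← Real.rpow_add (by norm_num)]
      congr 1
      ring
    rw [h9, ← h10, ← h8] at h7
    have h11 : (0 : ℝ) < (((2 : ℝ) ^ (j - 4)) ^ 2) ^ (1 - s) :=
      Real.rpow_pos_of_pos (by positivity) _
    have h12 : (((2 : ℝ) ^ (j - 4)) ^ 2) ^ (1 - s) * ν.real (Ap (8 ^ (2 ^ (j - 4)))
        (2 * 8 ^ (2 ^ (j - 4)) * (1 / 2 ^ (2 ^ j))))ᶜ ≤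
        (((2 : ℝ) ^ (j - 4)) ^ 2) ^ (1 - s) * ((256 : ℝ) ^ (1 - s) * ρ ^ j) := by
      refine h7.trans (le_of_eq ?_)
      ring
    exact le_of_mul_le_mul_left h12 h11
  have h4 := hS (Ico k₀ J) (by
    rw [Finset.disjoint_left]
    intro j hj hjs
    rw [mem_Ico] at hj
    have := mem_range.1 (hN hjs)
    omega)
  have h5 : ∑ j ∈ Ico k₀ J, (256 : ℝ) ^ (1 - s) * ρ ^ j < 1 / 2 :=
    lt_of_le_of_lt (le_abs_self _) h4
  have h6 := Finset.sum_le_sum hterm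
  have hJ' : 1 / 2 < ∑ j ∈ Ico k₀ J, ν.real (Ap (8 ^ (2 ^ (j - 4)))
      (2 * 8 ^ (2 ^ (j - 4)) * (1 / 2 ^ (2 ^ j))))ᶜ := hJ
  linarith

end Helper17.GH
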